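import Pool.Agent.H.MP_5e604b_co.Distinct

/-!
All cubic bipartite graphs with exactly five, and all with exactly six, distinct eigenvalues.

The graphs are given by LCF codes.
-/

namespace Pool.Agent.Results.MP_5e604b_co.Classification

open Pool.Agent.H

/-- The graph with LCF code `L` on the vertices `0, …, N - 1` (arithmetic modulo `N`): vertex `i`
is joined to `i + 1` and to `i + L[i mod |L|]`. -/
def lcf (N : ℕ) (L : List ℤ) : SimpleGraph (Fin N) :=
  SimpleGraph.fromRel fun i j =>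
    (j.val : ℤ) ≡ i.val + 1 [ZMOD N] ∨ (j.val : ℤ) ≡ i.val + L.getD (i.val % L.length) 0 [ZMOD N]

/-- The complete bipartite graph with parts of size three. -/
def K33 : ℕ × List ℤ := (6, [3, -3])

/-- The cube graph on 8 vertices. -/
def Q3 : ℕ × List ℤ := (8, [3, -3])

/-- The Möbius ladder on 10 vertices. -/
def Moebius10 : ℕ × List ℤ := (10, [3, -3])

/-- The Franklin graph. -/
def Franklin : ℕ × List ℤ := (12, [5, -5])

/-- The Heawood graph. -/
def Heawood : ℕ × List ℤ := (14, [5, -5])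

/-- The Möbius-Kantor graph. -/
def MoebiusKantor : ℕ × List ℤ := (16, [5, -5])

/-- The other 16-vertex graph: bi-Cayley graph of the integers modulo 8 with set 0, 1, 4. -/
def Haar16 : ℕ × List ℤ := (16, [7, -7])

/-- The Pappus graph. -/
def Pappus : ℕ × List ℤ := (18, [5, 7, -7, 7, -7, -5])

/-- The Desargues graph. -/
def Desargues : ℕ × List ℤ := (20, [5, -5, 9, -9])

/-- The cospectral mate of the Desargues graph. -/
def DesarguesMate : ℕ × List ℤ :=
  (20, [-9, -7, 7, -7, -5, 5, -9, 5, 7, -7, -5, 9, -5, 5, 7, -7, 7, 9, -5, 5])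

/-- The graph F26A. -/
def F26A : ℕ × List ℤ := (26, [7, -7])

/-- The Tutte-Coxeter graph. -/
def TutteCoxeter : ℕ × List ℤ := (30, [-13, -9, 7, -7, 9, 13])

/-- The Dyck graph. -/
def Dyck : ℕ × List ℤ := (32, [5, -5, 13, -13])

/-- Every connected component of `G` is isomorphic to one of the graphs with code in `L`. -/
def Only {V : Type*} (G : SimpleGraph V) (L : List (ℕ × List ℤ)) : Prop :=
  ∀ c : G.ConnectedComponent, ∃ l ∈ L, Nonempty (G.induce c.supp ≃g lcf l.1 l.2)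

/-- Some connected component of `G` is isomorphic to the graph with code `l`. -/
def Has {V : Type*} (G : SimpleGraph V) (l : ℕ × List ℤ) : Prop :=
  ∃ c : G.ConnectedComponent, Nonempty (G.induce c.supp ≃g lcf l.1 l.2)

section proof

open MP_5e604b_co

lemma built_iff {V : Type*} {G : SimpleGraph V} {A B : List (ℕ × List ℤ)} :
    Built G A B ↔ Only G (A ++ B) ∧ ∃ l ∈ B, Has G l := by
  constructor
  · rintro ⟨h, c, l, hl, hc⟩
    exact ⟨h, l, hl, c, hc⟩
  · rintro ⟨h, l, hl, c, hc⟩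
    exact ⟨h, c, l, hl, hc⟩

variable {V : Type*} {G : SimpleGraph V}

lemma only_of {X : Finset (Fin 11)} {L : List (Fin 13)}
    (hall : ∀ c : G.ConnectedComponent, ∃ k, U k ⊆ X ∧
      Nonempty (G.induce c.supp ≃g lcf (code k).1 (code k).2)) (hX : Ok X L) :
    Only G (L.map code) := by
  intro c
  obtain ⟨k, hk, h⟩ := hall c
  exact ⟨code k, List.mem_map_of_mem (hX k hk), h⟩

variable [Fintype V] [DecidableEq V] [DecidableRel G.Adj]

lemma sq_of {A : List (Fin 13)} (hA : Only G (A.map code)) {k k' : Fin 13}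
    (h : Has G (code k)) (h' : Has G (code k')) (X : Finset (Fin 11))
    (hAX : ∀ k ∈ A, U k ⊆ X) (hX : X ⊆ U k ∪ U k') (hk : k ∈ A) :
    Sq G = val '' (X : Set (Fin 11)) := by
  have e : ∀ k, k ∈ A → ∀ l ∈ A ++ [k], l ∈ A := by
    intro k hk l hl
    rcases List.mem_append.1 hl with h | h
    · exact h
    · rw [List.mem_singleton] at h
      rwa [h]
  refine built_sq (A := A) (B := [k]) (A' := A) (B' := [k']) ?_ ?_ X ?_ ?_
  · rw [built_iff, ← List.map_append]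
    refine ⟨fun c => ?_, code k, by simp, h⟩
    obtain ⟨l, hl, hc⟩ := hA c
    exact ⟨l, by rw [List.map_append]; exact List.mem_append_left _ hl, hc⟩
  · rw [built_iff, ← List.map_append]
    refine ⟨fun c => ?_, code k', by simp, h'⟩
    obtain ⟨l, hl, hc⟩ := hA c
    exact ⟨l, by rw [List.map_append]; exact List.mem_append_left _ hl, hc⟩
  · intro l hl
    exact hAX l (e k hk l hl)
  · intro l hl l' hl'
    rw [List.mem_singleton] at hl hl'
    rw [hl, hl']
    exact hX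

lemma five_of {A : List (Fin 13)} {col : V → Bool} (hprop : ∀ v w, G.Adj v w → col v ≠ col w)
    (hA : Only G (A.map code)) (k k' : Fin 13) (h : Has G (code k)) (h' : Has G (code k'))
    (X : Finset (Fin 11)) (hX : (∀ k ∈ A, U k ⊆ X) ∧ X ⊆ U k ∪ U k' ∧ k ∈ A ∧ 0 ∈ X ∧ X.card = 3) :
    (spectrum ℝ (G.adjMatrix ℝ)).ncard = 5 := by
  have := sq_of hA h h' X hX.1 hX.2.1 hX.2.2.1
  rw [five_iff hprop, this, zero_mem_image, ncard_image]
  exact ⟨hX.2.2.2.1, hX.2.2.2.2⟩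

lemma six_of {A : List (Fin 13)} {col : V → Bool} (hprop : ∀ v w, G.Adj v w → col v ≠ col w)
    (hA : Only G (A.map code)) (k k' : Fin 13) (h : Has G (code k)) (h' : Has G (code k'))
    (X : Finset (Fin 11)) (hX : (∀ k ∈ A, U k ⊆ X) ∧ X ⊆ U k ∪ U k' ∧ k ∈ A ∧ 0 ∉ X ∧ X.card = 3) :
    (spectrum ℝ (G.adjMatrix ℝ)).ncard = 6 := by
  have := sq_of hA h h' X hX.1 hX.2.1 hX.2.2.1
  rw [six_iff hprop, this, zero_mem_image, ncard_image]
  exact ⟨hX.2.2.2.1, hX.2.2.2.2⟩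

end proof

open MP_5e604b_co in
/-- The cubic bipartite graphs with exactly five, and those with exactly six, distinct
eigenvalues. -/
theorem result :
    (∀ {V : Type*} [Fintype V] [DecidableEq V] (G : SimpleGraph V) [DecidableRel G.Adj],
      G.IsRegularOfDegree 3 → G.IsBipartite →
      ((spectrum ℝ (G.adjMatrix ℝ)).ncard = 5 ↔
        (Only G [K33, Pappus] ∧ Has G Pappus) ∨
        (Only G [K33, TutteCoxeter] ∧ Has G TutteCoxeter) ∨
        (Only G [K33, Q3] ∧ Has G K33 ∧ Has G Q3) ∨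
        (Only G [K33, Heawood] ∧ Has G K33 ∧ Has G Heawood)) ∧
      ((spectrum ℝ (G.adjMatrix ℝ)).ncard = 6 ↔
        (Only G [Q3, Franklin, MoebiusKantor] ∧ (Has G Franklin ∨ Has G MoebiusKantor)) ∨
        (Only G [Q3, Desargues, DesarguesMate] ∧ (Has G Desargues ∨ Has G DesarguesMate)) ∨
        (Only G [Q3, Haar16, Dyck] ∧ (Has G Haar16 ∨ Has G Dyck)) ∨
        (Only G [Q3, Heawood] ∧ Has G Q3 ∧ Has G Heawood) ∨
        (Only G [Moebius10] ∧ Has G Moebius10) ∨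
        (Only G [F26A] ∧ Has G F26A))) ∧
    [K33, Q3, Moebius10, Franklin, Heawood, MoebiusKantor, Haar16, Pappus, Desargues,
      DesarguesMate, F26A, TutteCoxeter, Dyck].Pairwise
        (fun l l' => IsEmpty (lcf l.1 l.2 ≃g lcf l'.1 l'.2)) := by
  refine ⟨?_, codes_pairwise⟩
  intro V _ _ G _ hreg' hbip
  obtain ⟨C⟩ := hbip
  have hprop : ∀ v w, G.Adj v w → decide (C v = 1) ≠ decide (C w = 1) := by
    intro v w h h'
    rw [decide_eq_decide] at h'
    have := C.valid h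
    omega
  have hreg : ∀ v, (G.neighborFinset v).card = 3 := hreg'
  constructor
  · constructor
    · intro h
      obtain ⟨h0, h3⟩ := (five_iff hprop).1 h
      obtain ⟨i, j, hij, hj, hi, hall, ⟨c₁, k₁, hs₁, hm₁, he₁⟩, ⟨c₂, k₂, hs₂, hm₂, he₂⟩⟩ :=
        types hreg hprop h3
      obtain rfl := hi.1 h0
      rcases comb5 j ⟨hij, hj⟩ k₁ ⟨hs₁, hm₁⟩ k₂ ⟨hs₂, hm₂⟩ with ⟨h1, h2⟩ | ⟨h1, h2⟩ |
        ⟨h1, h1', h2, -⟩ | ⟨h1, h1', h2, -⟩
      · rw [List.mem_singleton] at h1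
        subst h1
        exact Or.inl ⟨only_of hall h2, c₂, he₂⟩
      · rw [List.mem_singleton] at h1
        subst h1
        exact Or.inr (Or.inl ⟨only_of hall h2, c₂, he₂⟩)
      · rw [List.mem_singleton] at h1 h1'
        subst h1 h1'
        exact Or.inr (Or.inr (Or.inl ⟨only_of hall h2, ⟨c₁, he₁⟩, ⟨c₂, he₂⟩⟩))
      · rw [List.mem_singleton] at h1 h1'
        subst h1 h1'
        exact Or.inr (Or.inr (Or.inr ⟨only_of hall h2, ⟨c₁, he₁⟩, ⟨c₂, he₂⟩⟩))
    · rintro (⟨h1, h2⟩ | ⟨h1, h2⟩ | ⟨h1, h2, h3⟩ | ⟨h1, h2, h3⟩)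
      · exact five_of (A := [0, 7]) hprop h1 7 7 h2 h2 {0, 6, 10} (by decide)
      · exact five_of (A := [0, 11]) hprop h1 11 11 h2 h2 {0, 7, 10} (by decide)
      · exact five_of (A := [0, 1]) hprop h1 0 1 h2 h3 {0, 3, 10} (by decide)
      · exact five_of (A := [0, 4]) hprop h1 0 4 h2 h3 {0, 4, 10} (by decide)
  · constructor
    · intro h
      obtain ⟨h0, h3⟩ := (six_iff hprop).1 h
      obtain ⟨i, j, hij, hj, hi, hall, ⟨c₁, k₁, hs₁, hm₁, he₁⟩, ⟨c₂, k₂, hs₂, hm₂, he₂⟩⟩ :=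
        types hreg hprop h3
      have hi0 : 0 < i := Fin.pos_iff_ne_zero.2 fun h => h0 (hi.2 h)
      rcases comb6 i j ⟨hi0, hij, hj⟩ k₁ ⟨hs₁, hm₁⟩ k₂ ⟨hs₂, hm₂⟩ with ⟨h1, h2⟩ | ⟨h1, h2⟩ |
        ⟨h1, h2⟩ | ⟨h1, h1', h2, -⟩ | ⟨h1, h2⟩ | ⟨h1, h2⟩
      · rw [List.mem_cons, List.mem_singleton] at h1
        refine Or.inl ⟨only_of hall h2, ?_⟩
        rcases h1 with rfl | rfl
        · exact Or.inl ⟨c₂, he₂⟩
        · exact Or.inr ⟨c₂, he₂⟩
      · rw [List.mem_cons, List.mem_singleton] at h1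
        refine Or.inr (Or.inl ⟨only_of hall h2, ?_⟩)
        rcases h1 with rfl | rfl
        · exact Or.inl ⟨c₂, he₂⟩
        · exact Or.inr ⟨c₂, he₂⟩
      · rw [List.mem_cons, List.mem_singleton] at h1
        refine Or.inr (Or.inr (Or.inl ⟨only_of hall h2, ?_⟩))
        rcases h1 with rfl | rfl
        · exact Or.inl ⟨c₂, he₂⟩
        · exact Or.inr ⟨c₂, he₂⟩
      · rw [List.mem_singleton] at h1 h1'
        subst h1 h1'
        exact Or.inr (Or.inr (Or.inr (Or.inl ⟨only_of hall h2, ⟨c₁, he₁⟩, ⟨c₂, he₂⟩⟩)))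
      · rw [List.mem_singleton] at h1
        subst h1
        exact Or.inr (Or.inr (Or.inr (Or.inr (Or.inl ⟨only_of hall h2, c₂, he₂⟩))))
      · rw [List.mem_singleton] at h1
        subst h1
        exact Or.inr (Or.inr (Or.inr (Or.inr (Or.inr ⟨only_of hall h2, c₂, he₂⟩))))
    · rintro (⟨h1, h2 | h2⟩ | ⟨h1, h2 | h2⟩ | ⟨h1, h2 | h2⟩ | ⟨h1, h2, h3⟩ | ⟨h1, h2⟩ | ⟨h1, h2⟩)
      · exact six_of (A := [1, 3, 5]) hprop h1 3 3 h2 h2 {3, 6, 10} (by decide)
      · exact six_of (A := [1, 3, 5]) hprop h1 5 5 h2 h2 {3, 6, 10} (by decide)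
      · exact six_of (A := [1, 8, 9]) hprop h1 8 8 h2 h2 {3, 7, 10} (by decide)
      · exact six_of (A := [1, 8, 9]) hprop h1 9 9 h2 h2 {3, 7, 10} (by decide)
      · exact six_of (A := [1, 6, 12]) hprop h1 6 6 h2 h2 {3, 9, 10} (by decide)
      · exact six_of (A := [1, 6, 12]) hprop h1 12 12 h2 h2 {3, 9, 10} (by decide)
      · exact six_of (A := [1, 4]) hprop h1 1 4 h2 h3 {3, 4, 10} (by decide)
      · exact six_of (A := [2]) hprop h1 2 2 h2 h2 {1, 5, 10} (by decide)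
      · exact six_of (A := [10]) hprop h1 10 10 h2 h2 {2, 8, 10} (by decide)

end Pool.Agent.Results.MP_5e604b_co.Classification
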